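import Mathlib
import Pool.Agent.V7H87.KD.Fin3
import Pool.Agent.V7H87.KD.Prime
import Pool.Agent.V7H87.KD.Bridge

/-!
# Finite D'Angelo type implies termination of Kohn's algorithm (smooth pseudoconvex boundaries)

Let `Ω = {r < 0}` be a pseudoconvex domain with smooth boundary in `ℂⁿ`, `dr ≠ 0` on `bΩ`. If the
D'Angelo type of `bΩ` at the boundary point `x` is finite, then `1 ∈ I_k` for some `k`, where `I_1`,
`I_2`, … are Kohn's ideals of germs of smooth functions at `x`.

Sketch of the proof. Suppose that `1` belongs to no `I_k`. By Zorn's lemma there is a maximal proper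
ideal `p` of smooth functions which is closed under Kohn's two operations; it is prime, since `(p : s)`
is again closed. Linear algebra over the field of fractions of `R / p` gives a `(1,0)` field `Z` with
coefficients not all in `p`, which preserves `p` and is null for the Levi form modulo `p`. An
order-of-vanishing argument along the Lie algebra generated by `Z` and its conjugate, based on the
positivity of the Levi form at the displaced points `exp(tD)`, `t` imaginary, shows that all mixed
derivatives of the polarised function `r` along `D = Z + Z̄` belong to `p`. Hence at suitable points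
tending to `x` the function `r` is small along formal curves to all orders, compared with the first
coefficient of the curve, and a limit argument together with curve selection in `ℂ⟦z⟧` yields
holomorphic curves through `x` of bounded order with arbitrarily high contact, so that the type at `x`
is infinite.

In the statement `V` is the complex vector space of covectors of `ℂⁿ`, with its basis
`dz_1, …, dz_n, dz̄_1, …, dz̄_n` (`b (Sum.inl j) = dz_j`, `b (Sum.inr j) = dz̄_j`), and forms are elements
of the exterior algebra of `V`.
-/

set_option autoImplicit false

open Filter Topology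
open scoped ContDiff
open Pool.Agent.V7H87.KD

namespace Pool.Agent.Results.MP_80f671_an.KohnTerminationH87

/-- A boundary point of finite D'Angelo type of a smooth pseudoconvex domain is of finite type in the
sense of Kohn. -/
theorem result {n : ℕ} {V : Type} [AddCommGroup V] [Module ℂ V]
    (b : Module.Basis (Fin n ⊕ Fin n) ℂ V)
    (Ω : Set (Fin n → ℂ)) (r : (Fin n → ℂ) → ℝ) (hr : ContDiff ℝ ∞ r)
    (hΩ : Ω = {z | r z < 0}) (hd : ∀ z ∈ frontier Ω, fderiv ℝ r z ≠ 0)
    (hpsc : ∀ z ∈ frontier Ω, LeviNonneg (fun w => (r w : ℂ)) z)
    (x : Fin n → ℂ) (hx : x ∈ frontier Ω) (hft : dAngeloType r x < ⊤) :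
    ∃ k, (fun _ => (1 : ℂ)) ∈ kIdeal (fun j => ExteriorAlgebra.ι ℂ (b (Sum.inl j)))
      (fun j => ExteriorAlgebra.ι ℂ (b (Sum.inr j))) (fun w => (r w : ℂ)) x k := by
  subst hΩ
  have hx0 : r x = 0 := frontier_lt_subset_eq hr.continuous continuous_const hx
  by_contra hcon
  push Not at hcon
  obtain ⟨p, hp, hK⟩ := exists_prime r hr x fun k => by
    rw [← kIdeal_eq b]
    exact hcon k
  have := type_infinite r hr x hx0 (hd x hx) (Eventually.of_forall hpsc) p hp hK
  rw [this] at hft
  exact lt_irrefl _ hft

end Pool.Agent.Results.MP_80f671_an.KohnTerminationH87
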